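import Pool.Agent.Y157.PC.Stm
import Pool.Agent.Y536.PS.CONJ
import Pool.Agent.W401.Cheb.Main

/-!
Project PC (helper157), job PC-CHD (helper219): Chebotarev's theorem in terms of the decomposition
groups of valuation rings, with a divergent sum of reciprocals.
-/

set_option autoImplicit false

open Finset Filter Topology NumberField

namespace Pool.Agent.Y219.PC

open Pool.Agent.Y157.PS Pool.Agent.Y157.PC Pool.Agent.W401.Cheb

/-! ## Sets of primes of positive lower density -/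

lemma abel (b : ℕ → ℝ) (C : ℝ) (h0 : b 0 = 0)
    (hB : ∀ N, -C ≤ ∑ k ∈ range (N + 1), b k) (N : ℕ) :
    -C * (1 - 1 / (N + 1 : ℝ)) + (∑ k ∈ range (N + 1), b k) / (N + 1 : ℝ) ≤
      ∑ k ∈ range (N + 1), b k / k := by
  induction N with
  | zero => simp [h0]
  | succ N ih =>
    rw [sum_range_succ (fun k => b k / (k : ℝ)) (N + 1)]
    have h1 := hB (N + 1)
    obtain ⟨s, hs⟩ : ∃ s, s = ∑ k ∈ range (N + 1 + 1), b k := ⟨_, rfl⟩
    have h2 : ∑ k ∈ range (N + 1), b k = s - b (N + 1) := by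
      rw [hs, sum_range_succ _ (N + 1)]; ring
    rw [← hs] at h1 ⊢
    rw [h2] at ih
    have hN : (0 : ℝ) < (N : ℝ) + 1 := by positivity
    have h3 : 1 / ((N : ℝ) + 1 + 1) ≤ 1 / ((N : ℝ) + 1) :=
      one_div_le_one_div_of_le hN (by linarith)
    have h4 : 0 ≤ (C + s) * (1 / ((N : ℝ) + 1) - 1 / ((N : ℝ) + 1 + 1)) :=
      mul_nonneg (by linarith) (by linarith)
    push_cast
    have e1 : (s - b (N + 1)) / ((N : ℝ) + 1) + b (N + 1) / ((N : ℝ) + 1) = s * (1 / ((N : ℝ) + 1)) := by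
      ring
    have e2 : s / ((N : ℝ) + 1 + 1) = s * (1 / ((N : ℝ) + 1 + 1)) := by ring
    rw [e2]
    nlinarith

open Classical in
lemma div_of_density (T1 : Set ℕ) (hp : ∀ p ∈ T1, p.Prime) (c : ℝ) (hc : 0 < c)
    (hT : ∃ N0 : ℕ, ∀ N, N0 ≤ N → c * (Nat.primeCounting N : ℝ) ≤
      (((range (N + 1)).filter fun k => k ∈ T1).card : ℝ)) (B : ℝ) :
    ∃ T : Finset ℕ, (∀ p ∈ T, p ∈ T1) ∧ B ≤ ∑ p ∈ T, (1 / p : ℝ) := by
  obtain ⟨N0, hN0⟩ := hT
  obtain ⟨b, hb⟩ : ∃ b : ℕ → ℝ, b = fun n => (if n ∈ T1 then 1 else 0) -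
    c * (if n.Prime then 1 else 0) := ⟨_, rfl⟩
  have hsum : ∀ N, ∑ k ∈ range (N + 1), b k =
      (((range (N + 1)).filter fun k => k ∈ T1).card : ℝ) - c * (Nat.primeCounting N : ℝ) := by
    intro N
    rw [hb]
    simp only
    rw [sum_sub_distrib, ← mul_sum, sum_boole, sum_boole]
    rw [Nat.primeCounting, Nat.primeCounting', Nat.count_eq_card_filter_range]
  obtain ⟨C, hC⟩ : ∃ C : ℝ, C = c * (Nat.primeCounting N0 : ℝ) := ⟨_, rfl⟩
  have hC0 : 0 ≤ C := by rw [hC]; positivity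
  have hB : ∀ N, -C ≤ ∑ k ∈ range (N + 1), b k := by
    intro N
    rw [hsum]
    rcases le_total N0 N with h | h
    · have := hN0 N h
      linarith
    · have h1 : (Nat.primeCounting N : ℝ) ≤ Nat.primeCounting N0 := by
        exact_mod_cast Nat.monotone_primeCounting h
      have h2 : c * (Nat.primeCounting N : ℝ) ≤ C := by
        rw [hC]; exact mul_le_mul_of_nonneg_left h1 hc.le
      have h3 : (0 : ℝ) ≤ (((range (N + 1)).filter fun k => k ∈ T1).card : ℝ) := by positivity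
      linarith
  have h0 : b 0 = 0 := by
    rw [hb]
    have : (0 : ℕ) ∉ T1 := fun h => by
      have := hp 0 h
      exact absurd this (by norm_num)
    simp [this, Nat.not_prime_zero]
  have hS : ∀ N, -C ≤ ∑ k ∈ range (N + 1), b k / k := by
    intro N
    have h1 := abel b C h0 hB N
    have h2 := hB N
    have hN : (0 : ℝ) < (N : ℝ) + 1 := by positivity
    have h3 : 0 ≤ (C + ∑ k ∈ range (N + 1), b k) / ((N : ℝ) + 1) := div_nonneg (by linarith) hN.le
    have h4 : -C * (1 - 1 / (N + 1 : ℝ)) + (∑ k ∈ range (N + 1), b k) / (N + 1 : ℝ) =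
        -C + (C + ∑ k ∈ range (N + 1), b k) / ((N : ℝ) + 1) := by ring
    linarith
  have hdiv : Tendsto (fun N : ℕ => ∑ k ∈ range N,
      Set.indicator {p : ℕ | p.Prime} (fun n : ℕ => (1 : ℝ) / n) k) atTop atTop := by
    refine (not_summable_iff_tendsto_nat_atTop_of_nonneg (fun n => ?_)).1
      not_summable_one_div_on_primes
    exact Set.indicator_nonneg (fun n _ => by positivity) n
  obtain ⟨N, hN⟩ := ((hdiv.comp (tendsto_add_atTop_nat 1)).eventually
    (eventually_ge_atTop ((B + C) / c))).exists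
  simp only [Function.comp] at hN
  rw [div_le_iff₀ hc] at hN
  refine ⟨(range (N + 1)).filter fun k => k ∈ T1, fun p hp => (mem_filter.1 hp).2, ?_⟩
  rw [sum_filter]
  have h5 := hS N
  have h6 : ∑ k ∈ range (N + 1), b k / k = (∑ k ∈ range (N + 1), if k ∈ T1 then (1 / k : ℝ) else 0) -
      (∑ k ∈ range (N + 1), Set.indicator {p : ℕ | p.Prime} (fun n : ℕ => (1 : ℝ) / n) k) * c := by
    rw [sum_mul, ← sum_sub_distrib]
    refine sum_congr rfl fun k _ => ?_
    rw [hb]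
    simp only [Set.indicator, Set.mem_ofPred_eq]
    split_ifs <;> ring
  linarith

/-! ## Chebotarev's theorem -/

open Classical in
lemma cheb_density (L : Type) [Field L] [NumberField L] [IsGalois ℚ L] (g : Gal(L/ℚ))
    (S : Finset ℕ) (B : ℝ) : ∃ T : Finset ℕ,
      (∀ p ∈ T, p.Prime ∧ p ∉ S ∧ xp L g p ≠ 0) ∧ B ≤ ∑ p ∈ T, (1 / p : ℝ) := by
  obtain ⟨D, hD, htor⟩ := torsor L
  obtain ⟨D', hD'⟩ : ∃ D', D' = D * ∏ s ∈ S, (if s = 0 then 1 else s) := ⟨_, rfl⟩
  have hD'0 : 0 < D' := by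
    rw [hD']
    refine Nat.mul_pos hD (Finset.prod_pos fun s _ => ?_)
    split_ifs <;> omega
  have hD'd : ∀ p : ℕ, p.Prime → ¬ p ∣ D' → ¬ p ∣ D ∧ p ∉ S := by
    intro p hp h
    refine ⟨fun h1 => h (by rw [hD']; exact Dvd.dvd.mul_right h1 _), fun h1 => h ?_⟩
    rw [hD']
    refine Dvd.dvd.mul_left ?_ _
    have h2 := Finset.dvd_prod_of_mem (fun s => if s = 0 then 1 else s) h1
    rwa [if_neg hp.ne_zero] at h2
  obtain ⟨T1, hT1⟩ : ∃ T1 : Set ℕ, T1 = {p | p.Prime ∧ ¬ p ∣ D ∧ p ∉ S ∧ xp L g p ≠ 0} := ⟨_, rfl⟩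
  obtain ⟨m, hm⟩ : ∃ m, m = Nat.card Gal(L/ℚ) := ⟨_, rfl⟩
  have hm0 : 0 < m := by rw [hm]; exact Nat.card_pos
  have hxp : ∀ p ∈ T1, xp L g p ≤ m := by
    intro p hp
    rw [hT1] at hp
    have : Fact p.Prime := ⟨hp.1⟩
    have h1 : Nat.card (𝓞 L →+* AlgebraicClosure (ZMod p)) = Nat.card Gal(L/ℚ) :=
      (htor p hp.2.1).1
    unfold xp
    rw [dif_pos hp.1, hm, ← h1]
    have hfin : Finite (𝓞 L →+* AlgebraicClosure (ZMod p)) :=
      Nat.finite_of_card_ne_zero (by rw [h1, ← hm]; omega)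
    exact Nat.card_le_card_of_injective _ Subtype.val_injective
  have hM : Tendsto (M fun p => if p ∈ T1 then (xp L g p : ℝ) else 0) atTop (𝓝 1) := by
    refine M_congr hD'0 (b := fun p => (xp L g p : ℝ)) ?_ (chebotarev L g)
    intro p hp hpD
    obtain ⟨h1, h2⟩ := hD'd p hp hpD
    by_cases h3 : xp L g p = 0
    · rw [h3]; simp
    · rw [if_pos]
      rw [hT1]; exact ⟨hp, h1, h2, h3⟩
  have hpm : ∀ p ∈ T1, p.Prime := fun p hp => by rw [hT1] at hp; exact hp.1
  obtain ⟨T, hT, hTB⟩ := div_of_density T1 hpm (1 / (2 * m)) (by positivity) (by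
    have h1 := hM.eventually (lt_mem_nhds (by norm_num : (1 / 2 : ℝ) < 1))
    have h2 := (h1.and (tendsto_pc.eventually (eventually_gt_atTop 0)))
    obtain ⟨N0, hN0⟩ := eventually_atTop.1 h2
    refine ⟨N0, fun N hN => ?_⟩
    obtain ⟨h3, h4⟩ := hN0 N hN
    unfold M at h3
    rw [lt_div_iff₀ h4] at h3
    have h5 : ∑ p ∈ pr N, (if p ∈ T1 then (xp L g p : ℝ) else 0) ≤
        m * (((range (N + 1)).filter fun k => k ∈ T1).card : ℝ) := by
      rw [← sum_filter]
      have h6 : (pr N).filter (fun k => k ∈ T1) ⊆ (range (N + 1)).filter fun k => k ∈ T1 := by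
        intro k hk
        rw [mem_filter] at hk ⊢
        exact ⟨(mem_filter.1 hk.1).1, hk.2⟩
      calc ∑ p ∈ (pr N).filter (fun k => k ∈ T1), (xp L g p : ℝ)
          ≤ ∑ p ∈ (pr N).filter (fun k => k ∈ T1), (m : ℝ) := by
            refine sum_le_sum fun p hp => ?_
            exact_mod_cast hxp p (mem_filter.1 hp).2
        _ ≤ ∑ p ∈ (range (N + 1)).filter (fun k => k ∈ T1), (m : ℝ) :=
            sum_le_sum_of_subset_of_nonneg h6 (fun _ _ _ => by positivity)
        _ = _ := by rw [sum_const, nsmul_eq_mul, mul_comm]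
    have hmr : (0 : ℝ) < m := by exact_mod_cast hm0
    rw [div_mul_eq_mul_div, one_mul, div_le_iff₀ (by positivity)]
    linarith) B
  refine ⟨T, fun p hp => ?_, hTB⟩
  have := hT p hp
  rw [hT1] at this
  exact ⟨this.1, this.2.2.1, this.2.2.2⟩

/-! ## Valuation rings of number fields -/

/-- a quotient of elements of a Dedekind domain, localized at a prime ideal -/
lemma dich {O L : Type} [CommRing O] [IsDedekindDomain O] [Field L] [Algebra O L]
    [IsFractionRing O L] (P : Ideal O) [hP : P.IsPrime] (hP0 : P ≠ ⊥) (x : L) :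
    ∃ c s : O, s ∉ P ∧ (x * algebraMap O L s = algebraMap O L c ∨
      x * algebraMap O L c = algebraMap O L s) := by
  have hdvr : IsDiscreteValuationRing (Localization.AtPrime P) :=
    IsLocalization.AtPrime.isDiscreteValuationRing_of_dedekind_domain O hP0 (Localization.AtPrime P)
  obtain ⟨a, b, hb, rfl⟩ := IsFractionRing.div_surjective (A := O) x
  have hb0 : b ≠ 0 := nonZeroDivisors.ne_zero hb
  have hinj : Function.Injective (algebraMap O (Localization.AtPrime P)) :=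
    IsLocalization.injective _ (Ideal.primeCompl_le_nonZeroDivisors P)
  have hbL : algebraMap O L b ≠ 0 := by
    rw [Ne, IsFractionRing.to_map_eq_zero_iff]; exact hb0
  have key : ∀ u v : O, algebraMap O (Localization.AtPrime P) u ∣
      algebraMap O (Localization.AtPrime P) v → ∃ c s : O, s ∉ P ∧ v * s = u * c := by
    rintro u v ⟨q, hq⟩
    obtain ⟨c, s, rfl⟩ := IsLocalization.exists_mk'_eq P.primeCompl q
    refine ⟨c, s, s.2, hinj ?_⟩
    rw [map_mul, map_mul, hq, mul_assoc, IsLocalization.mk'_spec]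
  rcases ValuationRing.dvd_total (algebraMap O (Localization.AtPrime P) b)
    (algebraMap O (Localization.AtPrime P) a) with h | h
  · obtain ⟨c, s, hs, e⟩ := key b a h
    refine ⟨c, s, hs, Or.inl ?_⟩
    rw [div_mul_eq_mul_div, div_eq_iff hbL, ← map_mul, ← map_mul, e, mul_comm]
  · obtain ⟨c, s, hs, e⟩ := key a b h
    refine ⟨c, s, hs, Or.inr ?_⟩
    rw [div_mul_eq_mul_div, div_eq_iff hbL, ← map_mul, ← map_mul, ← e, mul_comm]

/-- a valuation ring is determined by its centre on a Dedekind domain -/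
lemma unique {O L : Type} [CommRing O] [IsDedekindDomain O] [Field L] [Algebra O L]
    [IsFractionRing O L] (P : Ideal O) [hP : P.IsPrime] (hP0 : P ≠ ⊥) (A A' : ValuationSubring L)
    (h1 : ∀ x : O, algebraMap O L x ∈ A) (h1' : ∀ x : O, algebraMap O L x ∈ A')
    (h2 : ∀ x : O, algebraMap O L x ∈ A.nonunits ↔ x ∈ P)
    (h2' : ∀ x : O, algebraMap O L x ∈ A'.nonunits ↔ x ∈ P) : A = A' := by
  have hone : ∀ (C : ValuationSubring L), (∀ x : O, algebraMap O L x ∈ C) →
      (∀ x : O, algebraMap O L x ∈ C.nonunits ↔ x ∈ P) → ∀ (x : L) (c s : O), s ∉ P →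
      (x * algebraMap O L s = algebraMap O L c → x ∈ C) ∧
      (x * algebraMap O L c = algebraMap O L s → (x ∈ C ↔ c ∉ P)) := by
    intro C hC1 hC2 x c s hs
    have hval : ∀ y : O, C.valuation (algebraMap O L y) ≤ 1 := fun y =>
      (C.valuation_le_one_iff _).2 (hC1 y)
    have hval1 : ∀ y : O, y ∉ P → C.valuation (algebraMap O L y) = 1 := fun y hy =>
      le_antisymm (hval y) (not_lt.1 fun h => hy ((hC2 y).1 (C.mem_nonunits_iff.2 h)))
    constructor
    · intro h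
      rw [← C.valuation_le_one_iff]
      have := congrArg C.valuation h
      rw [map_mul, hval1 s hs, mul_one] at this
      rw [this]; exact hval c
    · intro h
      have := congrArg C.valuation h
      rw [map_mul, hval1 s hs] at this
      constructor
      · intro hx hc
        have hlt : C.valuation (algebraMap O L c) < 1 := C.mem_nonunits_iff.1 ((hC2 c).2 hc)
        have hx1 := (C.valuation_le_one_iff _).2 hx
        have : C.valuation x * C.valuation (algebraMap O L c) < 1 :=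
          lt_of_le_of_lt (mul_le_of_le_one_left' hx1) hlt
        exact absurd ‹C.valuation x * C.valuation (algebraMap O L c) = 1› this.ne
      · intro hc
        rw [hval1 c hc, mul_one] at this
        rw [← C.valuation_le_one_iff, this]
  ext x
  obtain ⟨c, s, hs, h | h⟩ := dich P hP0 x
  · exact ⟨fun _ => (hone A' h1' h2' x c s hs).1 h, fun _ => (hone A h1 h2 x c s hs).1 h⟩
  · rw [(hone A h1 h2 x c s hs).2 h, (hone A' h1' h2' x c s hs).2 h]

lemma non_iff {K : Type} [Field K] (A : ValuationSubring K) (z : K) :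
    z ∈ A.nonunits ↔ z ∈ A ∧ (z = 0 ∨ z⁻¹ ∉ A) := by
  rw [A.mem_nonunits_iff, ← A.valuation_le_one_iff z, ← A.valuation_le_one_iff z⁻¹]
  rcases eq_or_ne z 0 with rfl | hz
  · simp
  · have h0 : A.valuation z ≠ 0 := (Valuation.ne_zero_iff _).2 hz
    constructor
    · intro h
      refine ⟨h.le, Or.inr ?_⟩
      rw [map_inv₀, not_le]
      exact (one_lt_inv₀ (zero_lt_iff.2 h0)).2 h
    · rintro ⟨h, h' | h'⟩
      · exact absurd h' hz
      · rw [map_inv₀, not_le] at h'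
        exact (one_lt_inv₀ (zero_lt_iff.2 h0)).1 h'

lemma non_comap {K L : Type} [Field K] [Field L] (V : ValuationSubring L) (f : K →+* L) (z : K) :
    z ∈ (V.comap f).nonunits ↔ f z ∈ V.nonunits := by
  rw [non_iff, non_iff, ValuationSubring.mem_comap, ValuationSubring.mem_comap, map_inv₀,
    map_eq_zero]

lemma arith (κ : Type) [Field κ] [Algebra ℚ κ] [IsAlgClosure ℚ κ] (E' : IntermediateField ℚ κ)
    [NumberField E'] (σ₀ : κ ≃ₐ[ℚ] κ) (g : Gal(E'/ℚ))
    (hg : ∀ z : E', ((g z : E') : κ) = σ₀ z) (p : ℕ) [hp : Fact p.Prime]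
    (φ : 𝓞 E' →+* AlgebraicClosure (ZMod p)) (hφ : HasFrob p φ g) :
    ∃ V : ValuationSubring κ, (p : κ) ∈ V.nonunits ∧ ∃ φ' : κ ≃ₐ[ℚ] κ, Dec V φ' ∧
      ∀ z ∈ E', φ' z = σ₀ z := by
  obtain ⟨P, hPd⟩ : ∃ P, P = RingHom.ker φ := ⟨_, rfl⟩
  have hPp : P.IsPrime := by rw [hPd]; exact RingHom.ker_isPrime φ
  have hpP : ((p : ℕ) : 𝓞 E') ∈ P := by
    rw [hPd, RingHom.mem_ker, map_natCast]
    have : ((p : ℕ) : ZMod p) = 0 := ZMod.natCast_self p
    rw [← map_natCast (algebraMap (ZMod p) (AlgebraicClosure (ZMod p))), this, map_zero]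
  have hP0 : P ≠ ⊥ := by
    intro h
    rw [h, Ideal.mem_bot] at hpP
    exact hp.1.ne_zero (by exact_mod_cast hpP)
  have hmemP : ∀ x : 𝓞 E', x ∈ P ↔ φ x = 0 := fun x => by rw [hPd, RingHom.mem_ker]
  obtain ⟨v, hv⟩ : ∃ v : IsDedekindDomain.HeightOneSpectrum (𝓞 E'), v.asIdeal = P :=
    ⟨⟨P, hPp, hP0⟩, rfl⟩
  obtain ⟨A, hA⟩ : ∃ A, A = (v.valuation E').valuationSubring := ⟨_, rfl⟩
  have hA1 : ∀ x : 𝓞 E', algebraMap (𝓞 E') E' x ∈ A := fun x => by
    rw [hA, Valuation.mem_valuationSubring_iff]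
    exact v.valuation_le_one x
  have hA2 : ∀ x : 𝓞 E', algebraMap (𝓞 E') E' x ∈ A.nonunits ↔ x ∈ P := fun x => by
    rw [A.mem_nonunits_iff, hA,
      ← (Valuation.isEquiv_iff_val_lt_one.1
        (Valuation.isEquiv_valuation_valuationSubring (v.valuation E'))), ← hv]
    exact v.valuation_lt_one_iff_mem x
  obtain ⟨V, hV⟩ := Pool.Agent.Y536.PS.extv E' κ A
  have hgx : ∀ x : 𝓞 E', σ₀ (algebraMap E' κ (algebraMap (𝓞 E') E' x)) =
      algebraMap E' κ (algebraMap (𝓞 E') E' (g • x)) := fun x => (hg _).symm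
  have hAA : A = (V.comap (σ₀ : κ →+* κ)).comap (algebraMap E' κ) := by
    refine unique P hP0 A _ hA1 (fun x => ?_) hA2 (fun x => ?_)
    · rw [ValuationSubring.mem_comap, ValuationSubring.mem_comap]
      change σ₀ (algebraMap E' κ (algebraMap (𝓞 E') E' x)) ∈ V
      rw [hgx, ← ValuationSubring.mem_comap, hV]
      exact hA1 _
    · rw [non_comap, non_comap]
      change σ₀ (algebraMap E' κ (algebraMap (𝓞 E') E' x)) ∈ V.nonunits ↔ _
      rw [hgx, ← non_comap, hV, hA2, hmemP, hmemP, hφ x]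
      exact pow_eq_zero_iff hp.1.ne_zero
  have : Normal ℚ κ := IsAlgClosure.normal ℚ κ
  have : Normal E' κ := Normal.tower_top_of_normal ℚ E' κ
  obtain ⟨γ, hγ⟩ := Pool.Agent.Y536.PS.conj E' κ V (V.comap (σ₀ : κ →+* κ)) (by rw [hV, ← hAA])
  refine ⟨V, ?_, (γ.symm.restrictScalars ℚ).trans σ₀, fun z => ?_, fun z hz => ?_⟩
  · have h1 : ((p : ℕ) : κ) = algebraMap E' κ (algebraMap (𝓞 E') E' ((p : ℕ) : 𝓞 E')) := by simp
    rw [h1, ← non_comap, hV, hA2]
    exact hpP
  · have h1 := hγ (γ.symm z)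
    rw [γ.apply_symm_apply] at h1
    rw [← h1, ValuationSubring.mem_comap]
    rfl
  · have h1 : γ.symm (algebraMap E' κ ⟨z, hz⟩) = algebraMap E' κ ⟨z, hz⟩ := γ.symm.commutes _
    change σ₀ (γ.symm z) = σ₀ z
    exact congrArg σ₀ h1

lemma exists_nc (k κ : Type) [Field k] [Field κ] [Algebra k κ] [Normal k κ]
    (E : IntermediateField k κ) (hE : FiniteDimensional k E) :
    ∃ E' : IntermediateField k κ, FiniteDimensional k E' ∧ Normal k E' ∧ E ≤ E' :=
  ⟨IntermediateField.normalClosure k E κ, inferInstance, inferInstance,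
    IntermediateField.le_normalClosure E⟩

theorem chd : S_CHD := by
  intro κ _ _ _ S E hE σ₀ B
  have hn : Normal ℚ κ := IsAlgClosure.normal ℚ κ
  obtain ⟨E', hfin, hnor, hle⟩ := exists_nc ℚ κ E hE
  have hnf : NumberField E' :=
    @NumberField.of_module_finite ℚ E' _ _ _ (IntermediateField.algebra' E') hfin
  have e : (IntermediateField.algebra' E' : Algebra ℚ E') = DivisionRing.toRatAlgebra :=
    Subsingleton.elim _ _
  have hgal : @IsGalois ℚ _ E' _ DivisionRing.toRatAlgebra := by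
    rw [← e]
    exact @IsGalois.mk ℚ _ E' _ (IntermediateField.algebra' E') inferInstance hnor
  obtain ⟨g0, hg0⟩ : ∃ g0 : E' ≃+* E', ∀ z : E', ((g0 z : E') : κ) = σ₀ z :=
    ⟨(σ₀.restrictNormal E').toRingEquiv, fun z => AlgEquiv.restrictNormal_commutes σ₀ E' z⟩
  obtain ⟨g, hg⟩ : ∃ g : Gal(E'/ℚ), ∀ z : E', ((g z : E') : κ) = σ₀ z :=
    ⟨AlgEquiv.ofRingEquiv (f := g0) (fun r => by simp), hg0⟩
  obtain ⟨T, hT, hTB⟩ := cheb_density E' g S B
  refine ⟨T, fun p hp => ?_, hTB⟩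
  obtain ⟨hpp, hpS, hx⟩ := hT p hp
  have : Fact p.Prime := ⟨hpp⟩
  unfold xp at hx
  rw [dif_pos hpp] at hx
  obtain ⟨⟨φ, hφ⟩⟩ : Nonempty {φ : 𝓞 E' →+* AlgebraicClosure (ZMod p) //
      HasFrob p φ g} := by
    by_contra h
    rw [not_nonempty_iff] at h
    exact hx Nat.card_of_isEmpty
  obtain ⟨V, hV, φ', hφ', h⟩ := arith κ E' σ₀ g hg p φ hφ
  exact ⟨hpp, hpS, V, hV, φ', hφ', fun z hz => h z (hle hz)⟩

end Pool.Agent.Y219.PC
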